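import Pool.Agent.Lib.MP_4ca46c_ag.Nil.P.Corr

/-!
# The groups of algebraic correspondences
-/

set_option autoImplicit false

open CategoryTheory MonoidalCategory CartesianMonoidalCategory TensorProduct

namespace Pool.Agent.Lib.MP_4ca46c_ag.Nil

universe v u w

namespace PreWeil

variable {K : Type w} [Field K] [CharZero K] {𝒱 : Type u} [Category.{v} 𝒱]
  [CartesianMonoidalCategory 𝒱] (W : PreWeil K 𝒱) {X Y Z : 𝒱}

/-- `H^i = 0` for `i > 2 dim` -/
theorem gr_top {i : ℕ} {x : W.H X} (hx : x ∈ W.gr X i) (hi : 2 * W.dim X < i) : x = 0 := by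
  refine W.duality x fun y => ?_
  refine W.ind (P := fun y => W.tr X (x * y) = 0) y (by simp) (fun j y hy => ?_)
    (fun r s hr hs => by simp only [mul_add, map_add, hr, hs, add_zero])
  exact W.tr_gr (SetLike.mul_mem_graded hx hy) (by omega)

/-- a correspondence of degree `r` -/
theorem op_gr {c : ℕ} {u : W.H (X ⊗ Y)} (hu : u ∈ W.gr (X ⊗ Y) c) {i m : ℕ} {x : W.H Y}
    (hx : x ∈ W.gr Y i) (hm : m + 2 * W.dim Y = c + i) : W.op u x ∈ W.gr X m := by
  refine W.mem_gr_of_tr fun j y hy hj => ?_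
  rw [op_spec]
  refine W.tr_gr (SetLike.mul_mem_graded (SetLike.mul_mem_graded hu (W.pull_gr _ hx))
    (W.pull_gr _ hy)) ?_
  rw [W.dim_tensor]
  omega

theorem op_gr_zero {c : ℕ} {u : W.H (X ⊗ Y)} (hu : u ∈ W.gr (X ⊗ Y) c) {i : ℕ} {x : W.H Y}
    (hx : x ∈ W.gr Y i) (hm : c + i < 2 * W.dim Y) : W.op u x = 0 := by
  refine W.duality _ fun y => ?_
  refine W.ind (P := fun y => W.tr X (W.op u x * y) = 0) y (by simp) (fun j y hy => ?_)
    (fun r s hr hs => by simp only [mul_add, map_add, hr, hs, add_zero])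
  rw [op_spec]
  by_cases hj : 2 * W.dim X < j
  · rw [W.gr_top hy hj, map_zero, mul_zero, map_zero]
  · refine W.tr_gr (SetLike.mul_mem_graded (SetLike.mul_mem_graded hu (W.pull_gr _ hx))
      (W.pull_gr _ hy)) ?_
    rw [W.dim_tensor]
    omega

/-- the action determines the class -/
theorem op_inj {u v : W.H (X ⊗ Y)} (h : W.op u = W.op v) : u = v := by
  refine W.ext_tr fun z => ?_
  refine W.ind_tm (P := fun z => W.tr (X ⊗ Y) (u * z) = W.tr (X ⊗ Y) (v * z)) z (by simp)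
    (fun a b => ?_) (fun r s hr hs => by simp only [mul_add, map_add, hr, hs])
  refine W.ind (P := fun a => W.tr (X ⊗ Y) (u * W.tm a b) = W.tr (X ⊗ Y) (v * W.tm a b)) a
    (by simp [tm]) (fun i a ha => ?_) (fun r s hr hs => by
      simp only [tm, map_add, add_mul, mul_add] at hr hs ⊢
      rw [hr, hs])
  refine W.ind (P := fun b => W.tr (X ⊗ Y) (u * W.tm a b) = W.tr (X ⊗ Y) (v * W.tm a b)) b
    (by simp [tm]) (fun j b hb => ?_) (fun r s hr hs => by
      simp only [tm, map_add, mul_add] at hr hs ⊢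
      rw [hr, hs])
  have h1 : ∀ t : W.H (X ⊗ Y), W.tr (X ⊗ Y) (t * W.tm a b) =
      (-1) ^ (i * j) * W.tr X (W.op t b * a) := by
    intro t
    rw [op_spec, tm, W.comm_smul (W.pull_gr _ ha) (W.pull_gr _ hb), mul_smul_comm, map_smul,
      smul_eq_mul, mul_assoc t]
  rw [h1, h1, h]

/-- graphs -/
noncomputable def graph (g : X ⟶ Y) : W.H (X ⊗ Y) := W.push (lift (𝟙 X) g) 1

theorem op_graph (g : X ⟶ Y) : W.op (W.graph g) = (W.pull g).toLinearMap := by
  ext y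
  refine W.ext_tr fun x => ?_
  rw [op_spec, mul_assoc, graph, push_spec, one_mul, map_mul, ← W.pull_comp, ← W.pull_comp,
    lift_fst, lift_snd, W.pull_id]
  rfl

/-- the class `δ_* z` acts as multiplication by `z` -/
theorem op_diag (z : W.H X) : W.op (W.push (lift (𝟙 X) (𝟙 X)) z) = LinearMap.mulLeft K z := by
  ext y
  refine W.ext_tr fun x => ?_
  rw [op_spec, mul_assoc, push_spec, map_mul (W.pull _), ← W.pull_comp, ← W.pull_comp, lift_fst,
    lift_snd, W.pull_id, W.pull_id, ← mul_assoc]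
  rfl

/-- transposed graphs -/
theorem op_push (g : X ⟶ Y) : W.op (W.push (lift g (𝟙 X)) 1) = W.push g := by
  ext x
  refine W.ext_tr fun y => ?_
  rw [op_spec, mul_assoc, push_spec, one_mul, map_mul, ← W.pull_comp, ← W.pull_comp, lift_fst,
    lift_snd, W.pull_id, push_spec]

/-- algebraic classes of codimension `c`, zero for negative `c` -/
def AlgZ (X : 𝒱) (c : ℤ) : AddSubgroup (W.H X) := if 0 ≤ c then W.Alg X c.toNat else ⊥

theorem mem_algZ {c : ℤ} {x : W.H X} :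
    x ∈ W.AlgZ X c ↔ x = 0 ∨ ∃ n : ℕ, (n : ℤ) = c ∧ x ∈ W.Alg X n := by
  unfold AlgZ
  split_ifs with h
  · constructor
    · intro hx
      exact Or.inr ⟨c.toNat, Int.toNat_of_nonneg h, hx⟩
    · rintro (rfl | ⟨n, rfl, hx⟩)
      · exact AddSubgroup.zero_mem _
      · simpa using hx
  · rw [AddSubgroup.mem_bot]
    constructor
    · exact Or.inl
    · rintro (rfl | ⟨n, rfl, hx⟩)
      · rfl
      · exact absurd (Int.natCast_nonneg n) h

/-- algebraic correspondences `H(Y) → H(X)` of degree `r` -/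
def Cor (X Y : 𝒱) (r : ℤ) : AddSubgroup (W.H Y →ₗ[K] W.H X) where
  carrier := {f | ∃ u ∈ W.AlgZ (X ⊗ Y) (W.dim Y + r), f = W.op u}
  add_mem' := by
    rintro f g ⟨u, hu, rfl⟩ ⟨v, hv, rfl⟩
    exact ⟨u + v, AddSubgroup.add_mem _ hu hv, (W.op_add u v).symm⟩
  zero_mem' := ⟨0, AddSubgroup.zero_mem _, W.op_zero.symm⟩
  neg_mem' := by
    rintro f ⟨u, hu, rfl⟩
    refine ⟨-u, AddSubgroup.neg_mem _ hu, ?_⟩
    have h : -u = (-1 : K) • u := by rw [neg_smul, one_smul]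
    rw [h, op_smul]
    exact (neg_one_smul K _).symm

theorem mem_cor {r : ℤ} {f : W.H Y →ₗ[K] W.H X} :
    f ∈ W.Cor X Y r ↔ f = 0 ∨ ∃ (c : ℕ) (u : W.H (X ⊗ Y)), (c : ℤ) = W.dim Y + r ∧
      u ∈ W.Alg (X ⊗ Y) c ∧ f = W.op u := by
  constructor
  · rintro ⟨u, hu, rfl⟩
    rcases W.mem_algZ.1 hu with rfl | ⟨n, hn, hu⟩
    · exact Or.inl W.op_zero
    · exact Or.inr ⟨n, u, hn, hu, rfl⟩
  · rintro (rfl | ⟨c, u, hc, hu, rfl⟩)
    · exact AddSubgroup.zero_mem _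
    · exact ⟨u, W.mem_algZ.2 (Or.inr ⟨c, hc, hu⟩), rfl⟩

theorem cor_rat {r : ℤ} {f : W.H Y →ₗ[K] W.H X} (hf : f ∈ W.Cor X Y r) (q : ℚ) :
    (q : K) • f ∈ W.Cor X Y r := by
  rcases W.mem_cor.1 hf with rfl | ⟨c, u, hc, hu, rfl⟩
  · rw [smul_zero]
    exact AddSubgroup.zero_mem _
  · exact W.mem_cor.2 (Or.inr ⟨c, (q : K) • u, hc, W.alg_rat q hu, (W.op_smul _ _).symm⟩)

/-- correspondences have a degree -/
theorem cor_gr {r : ℤ} {f : W.H Y →ₗ[K] W.H X} (hf : f ∈ W.Cor X Y r) {i m : ℕ} {y : W.H Y}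
    (hy : y ∈ W.gr Y i) (hm : (m : ℤ) = i + 2 * r) : f y ∈ W.gr X m := by
  rcases W.mem_cor.1 hf with rfl | ⟨c, u, hc, hu, rfl⟩
  · exact Submodule.zero_mem _
  · exact W.op_gr (W.alg_gr hu) hy (by omega)

theorem cor_gr_zero {r : ℤ} {f : W.H Y →ₗ[K] W.H X} (hf : f ∈ W.Cor X Y r) {i : ℕ} {y : W.H Y}
    (hy : y ∈ W.gr Y i) (hm : (i : ℤ) + 2 * r < 0) : f y = 0 := by
  rcases W.mem_cor.1 hf with rfl | ⟨c, u, hc, hu, rfl⟩
  · rfl
  · exact W.op_gr_zero (W.alg_gr hu) hy (by omega)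

theorem comp_alg {c d e : ℕ} {u : W.H (X ⊗ Y)} {v : W.H (Y ⊗ Z)} (hu : u ∈ W.Alg (X ⊗ Y) c)
    (hv : v ∈ W.Alg (Y ⊗ Z) d) (he : c + d = e + W.dim Y) :
    W.comp u v ∈ W.Alg (X ⊗ Z) e := by
  refine W.push_alg _ (W.alg_mul (W.alg_pull _ hu) (W.alg_pull _ hv)) ?_
  simp only [W.dim_tensor]
  omega

/-- the composition of algebraic correspondences is algebraic -/
theorem cor_comp {r s : ℤ} {f : W.H Y →ₗ[K] W.H X} {g : W.H Z →ₗ[K] W.H Y}
    (hf : f ∈ W.Cor X Y r) (hg : g ∈ W.Cor Y Z s) : f ∘ₗ g ∈ W.Cor X Z (r + s) := by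
  rcases W.mem_cor.1 hf with rfl | ⟨c, u, hc, hu, rfl⟩
  · rw [LinearMap.zero_comp]
    exact AddSubgroup.zero_mem _
  rcases W.mem_cor.1 hg with rfl | ⟨d, v, hd, hv, rfl⟩
  · rw [LinearMap.comp_zero]
    exact AddSubgroup.zero_mem _
  by_cases h : W.dim Y ≤ c + d
  · refine W.mem_cor.2 (Or.inr ⟨c + d - W.dim Y, W.comp u v, by omega,
      W.comp_alg hu hv (by omega), (W.op_comp u v).symm⟩)
  · -- negative codimension: the composition is zero
    have h0 : W.op u ∘ₗ W.op v = 0 := by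
      ext z
      refine W.ind (P := fun z => (W.op u ∘ₗ W.op v) z = (0 : W.H Z →ₗ[K] W.H X) z) z (by simp)
        (fun i z hz => ?_) (fun r s hr hs => by simp only [map_add, hr, hs])
      rw [LinearMap.comp_apply, LinearMap.zero_apply]
      by_cases h1 : 2 * d + i < 2 * W.dim Z
      · rw [W.op_gr_zero (W.alg_gr hv) hz h1, map_zero]
      · have h2 : W.op v z ∈ W.gr Y (2 * d + i - 2 * W.dim Z) :=
          W.op_gr (W.alg_gr hv) hz (by omega)
        by_cases h3 : 2 * W.dim Z < i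
        · rw [W.gr_top hz h3, map_zero, map_zero]
        · exact W.op_gr_zero (W.alg_gr hu) h2 (by omega)
    rw [h0]
    exact AddSubgroup.zero_mem _

/-- pull-back is algebraic of degree `0` -/
theorem cor_pull (g : X ⟶ Y) : (W.pull g).toLinearMap ∈ W.Cor X Y 0 := by
  refine W.mem_cor.2 (Or.inr ⟨W.dim Y, W.graph g, by omega, ?_, (W.op_graph g).symm⟩)
  exact W.push_alg _ (W.alg_one X) (by rw [W.dim_tensor]; omega)

/-- push-forward is algebraic of degree `dim Y - dim X` -/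
theorem cor_push (g : X ⟶ Y) : W.push g ∈ W.Cor Y X ((W.dim Y : ℤ) - W.dim X) := by
  refine W.mem_cor.2 (Or.inr ⟨W.dim Y, W.push (lift g (𝟙 X)) 1, by omega, ?_,
    (W.op_push g).symm⟩)
  exact W.push_alg _ (W.alg_one X) (by rw [W.dim_tensor]; omega)

/-- multiplication by an algebraic class -/
theorem cor_mul {c : ℕ} {z : W.H X} (hz : z ∈ W.Alg X c) :
    LinearMap.mulLeft K z ∈ W.Cor X X c := by
  refine W.mem_cor.2 (Or.inr ⟨c + W.dim X, W.push (lift (𝟙 X) (𝟙 X)) z, by push_cast; ring, ?_,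
    (W.op_diag z).symm⟩)
  exact W.push_alg _ hz (by rw [W.dim_tensor]; omega)

theorem cor_id (X : 𝒱) : (LinearMap.id : W.H X →ₗ[K] W.H X) ∈ W.Cor X X 0 := by
  have h := W.cor_pull (𝟙 X)
  have h1 : (W.pull (𝟙 X)).toLinearMap = LinearMap.id := LinearMap.ext fun x => W.pull_id x
  rwa [h1] at h

theorem tm_alg {c d : ℕ} {a : W.H X} {b : W.H Y} (ha : a ∈ W.Alg X c) (hb : b ∈ W.Alg Y d) :
    W.tm a b ∈ W.Alg (X ⊗ Y) (c + d) := W.alg_mul (W.alg_pull _ ha) (W.alg_pull _ hb)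

end PreWeil

end Pool.Agent.Lib.MP_4ca46c_ag.Nil
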