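import Pool.Agent.Lib.MP_4ca46c_ag.Nil.P.Weil

/-!
# Push-forward and correspondences
-/

set_option autoImplicit false

open CategoryTheory MonoidalCategory CartesianMonoidalCategory TensorProduct

namespace Pool.Agent.Lib.MP_4ca46c_ag.Nil

universe v u w

namespace PreWeil

attribute [instance] ring algebra finite graded

variable {K : Type w} [Field K] [CharZero K] {𝒱 : Type u} [Category.{v} 𝒱]
  [CartesianMonoidalCategory 𝒱] (W : PreWeil K 𝒱) {X Y Z : 𝒱}

/-- induction over homogeneous elements -/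
theorem ind {P : W.H X → Prop} (x : W.H X) (h0 : P 0)
    (hh : ∀ (i : ℕ) (a : W.H X), a ∈ W.gr X i → P a) (ha : ∀ a b, P a → P b → P (a + b)) : P x := by
  have h := DirectSum.Decomposition.inductionOn (W.gr X) (motive := P) h0
    (fun {i} m => hh i m.1 m.2) ha x
  exact h

/-- Poincaré duality as an isomorphism -/
noncomputable def dual (X : 𝒱) : W.H X ≃ₗ[K] Module.Dual K (W.H X) :=
  LinearEquiv.ofBijective
    ((LinearMap.mul K (W.H X)).compr₂ (W.tr X)) (by
      have hinj : Function.Injective ((LinearMap.mul K (W.H X)).compr₂ (W.tr X)) := by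
        rw [injective_iff_map_eq_zero]
        intro x hx
        exact W.duality x fun y => LinearMap.congr_fun hx y
      refine ⟨hinj, ?_⟩
      exact (LinearMap.injective_iff_surjective_of_finrank_eq_finrank
        (Subspace.dual_finrank_eq).symm).1 hinj)

theorem dual_apply (x y : W.H X) : W.dual X x y = W.tr X (x * y) := rfl

/-- push-forward -/
noncomputable def push (f : X ⟶ Y) : W.H X →ₗ[K] W.H Y :=
  (W.dual Y).symm.toLinearMap ∘ₗ
    (((LinearMap.mul K (W.H X)).compr₂ (W.tr X)).compl₂ (W.pull f).toLinearMap)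

theorem push_spec (f : X ⟶ Y) (x : W.H X) (y : W.H Y) :
    W.tr Y (W.push f x * y) = W.tr X (x * W.pull f y) := by
  rw [← dual_apply]
  show W.dual Y ((W.dual Y).symm _) y = _
  rw [LinearEquiv.apply_symm_apply]
  rfl

theorem ext_tr {x x' : W.H X} (h : ∀ y, W.tr X (x * y) = W.tr X (x' * y)) : x = x' := by
  rw [← sub_eq_zero]
  refine W.duality _ fun y => ?_
  rw [sub_mul, map_sub, h, sub_self]

/-- `z = f_* x` -/
theorem push_eq (f : X ⟶ Y) (x : W.H X) (z : W.H Y)
    (h : ∀ y, W.tr Y (z * y) = W.tr X (x * W.pull f y)) : W.push f x = z :=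
  W.ext_tr fun y => by rw [push_spec, h]

theorem push_alg (f : X ⟶ Y) {c e : ℕ} {x : W.H X} (hx : x ∈ W.Alg X c)
    (h : c + W.dim Y = e + W.dim X) : W.push f x ∈ W.Alg Y e :=
  W.alg_push f hx h fun y => W.push_spec f x y

/-- trace of a product of homogeneous elements of complementary degrees is symmetric up to sign -/
theorem tr_comm {i j : ℕ} {x y : W.H X} (hx : x ∈ W.gr X i) (hy : y ∈ W.gr X j) :
    W.tr X (x * y) = (-1) ^ (i * j) * W.tr X (y * x) := by
  rw [W.comm hx hy]
  have h : ((-1 : W.H X)) ^ (i * j) * (y * x) = ((-1 : K) ^ (i * j)) • (y * x) := by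
    rcases neg_one_pow_eq_or (W.H X) (i * j) with h1 | h1 <;>
    rcases Nat.even_or_odd (i * j) with h2 | h2
    · rw [h2.neg_one_pow, h2.neg_one_pow, one_mul, one_smul]
    · rw [h2.neg_one_pow, h2.neg_one_pow, neg_one_mul, neg_one_smul]
    · rw [h2.neg_one_pow, h2.neg_one_pow, one_mul, one_smul]
    · rw [h2.neg_one_pow, h2.neg_one_pow, neg_one_mul, neg_one_smul]
  rw [h, map_smul, smul_eq_mul]

/-- the key computation for correspondences: no signs -/
theorem tr_snd (p : W.H X) (q : W.H Y) (y : W.H X) :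
    W.tr (X ⊗ Y) (W.pull (fst X Y) p * W.pull (snd X Y) q * W.pull (fst X Y) y) =
      W.tr X (p * y) * W.tr Y q := by
  refine W.ind (P := fun q => W.tr (X ⊗ Y) (W.pull (fst X Y) p * W.pull (snd X Y) q *
    W.pull (fst X Y) y) = W.tr X (p * y) * W.tr Y q) q (by simp) (fun i q hq => ?_)
    (fun q q' h h' => by simp only [map_add, mul_add, add_mul, h, h'])
  refine W.ind (P := fun y => W.tr (X ⊗ Y) (W.pull (fst X Y) p * W.pull (snd X Y) q *
    W.pull (fst X Y) y) = W.tr X (p * y) * W.tr Y q) y (by simp) (fun j y hy => ?_)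
    (fun y y' h h' => by simp only [map_add, mul_add, add_mul, h, h'])
  have h1 : W.pull (snd X Y) q * W.pull (fst X Y) y =
      ((-1) ^ (i * j)) * (W.pull (fst X Y) y * W.pull (snd X Y) q) :=
    W.comm (W.pull_gr _ hq) (W.pull_gr _ hy)
  by_cases hi : i = 2 * W.dim Y
  · have h2 : Even (i * j) := by rw [hi]; exact ⟨W.dim Y * j, by ring⟩
    rw [mul_assoc, h1, h2.neg_one_pow, one_mul, ← mul_assoc, ← map_mul, W.tr_tensor]
  · rw [W.tr_gr hq hi, mul_zero, mul_assoc, h1]
    rcases Nat.even_or_odd (i * j) with h2 | h2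
    · rw [h2.neg_one_pow, one_mul, ← mul_assoc, ← map_mul, W.tr_tensor, W.tr_gr hq hi, mul_zero]
    · rw [h2.neg_one_pow, neg_one_mul, mul_neg, map_neg, ← mul_assoc, ← map_mul, W.tr_tensor,
        W.tr_gr hq hi, mul_zero, neg_zero]

/-- the action of a class on `X × Y` -/
noncomputable def op (u : W.H (X ⊗ Y)) : W.H Y →ₗ[K] W.H X :=
  W.push (fst X Y) ∘ₗ (LinearMap.mulLeft K u) ∘ₗ (W.pull (snd X Y)).toLinearMap

theorem op_apply (u : W.H (X ⊗ Y)) (x : W.H Y) :
    W.op u x = W.push (fst X Y) (u * W.pull (snd X Y) x) := rfl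

theorem op_spec (u : W.H (X ⊗ Y)) (x : W.H Y) (y : W.H X) :
    W.tr X (W.op u x * y) =
      W.tr (X ⊗ Y) (u * W.pull (snd X Y) x * W.pull (fst X Y) y) := by
  rw [op_apply, push_spec]

theorem op_add (u v : W.H (X ⊗ Y)) : W.op (u + v) = W.op u + W.op v := by
  ext x
  rw [LinearMap.add_apply, op_apply, op_apply, op_apply, add_mul, map_add]

theorem op_smul (a : K) (u : W.H (X ⊗ Y)) : W.op (a • u) = a • W.op u := by
  ext x
  rw [LinearMap.smul_apply, op_apply, op_apply, smul_mul_assoc, map_smul]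

theorem op_zero : W.op (0 : W.H (X ⊗ Y)) = 0 := by
  ext x
  rw [op_apply, zero_mul, map_zero, LinearMap.zero_apply]

/-- a decomposable class -/
noncomputable def tm (a : W.H X) (b : W.H Y) : W.H (X ⊗ Y) :=
  W.pull (fst X Y) a * W.pull (snd X Y) b

theorem op_tm (a : W.H X) (b x : W.H Y) : W.op (W.tm a b) x = W.tr Y (b * x) • a := by
  refine W.ext_tr fun y => ?_
  rw [op_spec, tm, mul_assoc (W.pull (fst X Y) a), ← map_mul, tr_snd, smul_mul_assoc, map_smul,
    smul_eq_mul, mul_comm]

/-- Künneth: induction over decomposable classes -/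
theorem ind_tm {P : W.H (X ⊗ Y) → Prop} (u : W.H (X ⊗ Y)) (h0 : P 0)
    (ht : ∀ a b, P (W.tm a b)) (ha : ∀ u v, P u → P v → P (u + v)) : P u := by
  obtain ⟨t, rfl⟩ := (W.kunneth X Y).2 u
  induction t using TensorProduct.induction_on with
  | zero => rw [map_zero]; exact h0
  | tmul a b => exact ht a b
  | add s t hs ht' => rw [map_add]; exact ha _ _ hs ht'

end PreWeil

end Pool.Agent.Lib.MP_4ca46c_ag.Nil
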