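import Pool.Agent.Lib.MP_4ca46c_ag.Nil.P.Trace

/-!
# Tensor products of correspondences and partial traces
-/

set_option autoImplicit false

open CategoryTheory MonoidalCategory CartesianMonoidalCategory TensorProduct

namespace Pool.Agent.Lib.MP_4ca46c_ag.Nil

universe v u w

namespace PreWeil

variable {K : Type w} [Field K] [CharZero K] {𝒱 : Type u} [Category.{v} 𝒱]
  [CartesianMonoidalCategory 𝒱] (W : PreWeil K 𝒱) {X Y X' Y' X'' Y'' : 𝒱}

/-- the Künneth isomorphism -/
noncomputable def kun (X Y : 𝒱) : W.H X ⊗[K] W.H Y ≃ₗ[K] W.H (X ⊗ Y) :=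
  LinearEquiv.ofBijective _ (W.kunneth X Y)

theorem kun_tmul (a : W.H X) (b : W.H Y) : W.kun X Y (a ⊗ₜ b) = W.tm a b := by
  show TensorProduct.lift _ (a ⊗ₜ b) = _
  rw [TensorProduct.lift.tmul]
  rfl

theorem kun_symm_tm (a : W.H X) (b : W.H Y) : (W.kun X Y).symm (W.tm a b) = a ⊗ₜ b := by
  rw [LinearEquiv.symm_apply_eq, kun_tmul]

/-- tensor product of linear maps -/
noncomputable def tens (f : W.H X →ₗ[K] W.H X') (g : W.H Y →ₗ[K] W.H Y') :
    W.H (X ⊗ Y) →ₗ[K] W.H (X' ⊗ Y') :=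
  (W.kun X' Y').toLinearMap ∘ₗ TensorProduct.map f g ∘ₗ (W.kun X Y).symm.toLinearMap

theorem tens_tm (f : W.H X →ₗ[K] W.H X') (g : W.H Y →ₗ[K] W.H Y') (a : W.H X) (b : W.H Y) :
    W.tens f g (W.tm a b) = W.tm (f a) (g b) := by
  show W.kun X' Y' (TensorProduct.map f g ((W.kun X Y).symm (W.tm a b))) = _
  rw [kun_symm_tm, TensorProduct.map_tmul, kun_tmul]

theorem tens_comp (f' : W.H X' →ₗ[K] W.H X'') (g' : W.H Y' →ₗ[K] W.H Y'')
    (f : W.H X →ₗ[K] W.H X') (g : W.H Y →ₗ[K] W.H Y') :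
    W.tens (f' ∘ₗ f) (g' ∘ₗ g) = W.tens f' g' ∘ₗ W.tens f g := by
  refine W.hom_ext_tm fun a b => ?_
  rw [LinearMap.comp_apply, tens_tm, tens_tm, tens_tm]
  rfl

theorem tens_id : W.tens (LinearMap.id : W.H X →ₗ[K] W.H X) (LinearMap.id : W.H Y →ₗ[K] W.H Y) =
    LinearMap.id := by
  refine W.hom_ext_tm fun a b => ?_
  rw [tens_tm]
  rfl

theorem tens_eps : W.tens (W.eps X) (W.eps Y) = W.eps (X ⊗ Y) := by
  refine W.hom_ext_tm fun a b => ?_
  refine W.ind (P := fun a => W.tens (W.eps X) (W.eps Y) (W.tm a b) = W.eps (X ⊗ Y) (W.tm a b)) a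
    (by rw [tm, map_zero, zero_mul, map_zero, map_zero]) (fun i a ha => ?_) (fun r s hr hs => by
      simp only [tm, map_add, add_mul] at hr hs ⊢
      rw [hr, hs])
  refine W.ind (P := fun b => W.tens (W.eps X) (W.eps Y) (W.tm a b) = W.eps (X ⊗ Y) (W.tm a b)) b
    (by rw [tm, map_zero, mul_zero, map_zero, map_zero]) (fun j b hb => ?_) (fun r s hr hs => by
      simp only [tm, map_add, mul_add] at hr hs ⊢
      rw [hr, hs])
  have h1 : W.tm a b ∈ W.gr (X ⊗ Y) (i + j) :=
    SetLike.mul_mem_graded (W.pull_gr _ ha) (W.pull_gr _ hb)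
  rw [tens_tm, W.eps_gr ha, W.eps_gr hb, W.eps_gr h1]
  simp only [tm, map_smul, smul_mul_assoc, mul_smul_comm, smul_smul, ← pow_add]
  rw [add_comm]

theorem tm_gr {i j : ℕ} {a : W.H X} {b : W.H Y} (ha : a ∈ W.gr X i) (hb : b ∈ W.gr Y j) :
    W.tm a b ∈ W.gr (X ⊗ Y) (i + j) :=
  SetLike.mul_mem_graded (W.pull_gr _ ha) (W.pull_gr _ hb)

/-- bilinearity -/
theorem tm_add_left (a a' : W.H X) (b : W.H Y) : W.tm (a + a') b = W.tm a b + W.tm a' b := by
  simp only [tm, map_add, add_mul]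

theorem tm_add_right (a : W.H X) (b b' : W.H Y) : W.tm a (b + b') = W.tm a b + W.tm a b' := by
  simp only [tm, map_add, mul_add]

theorem tm_smul_left (c : K) (a : W.H X) (b : W.H Y) : W.tm (c • a) b = c • W.tm a b := by
  simp only [tm, map_smul, smul_mul_assoc]

theorem tm_smul_right (c : K) (a : W.H X) (b : W.H Y) : W.tm a (c • b) = c • W.tm a b := by
  simp only [tm, map_smul, mul_smul_comm]

theorem tm_zero_left (b : W.H Y) : W.tm (0 : W.H X) b = 0 := by
  simp only [tm, map_zero, zero_mul]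

theorem tm_zero_right (a : W.H X) : W.tm a (0 : W.H Y) = 0 := by
  simp only [tm, map_zero, mul_zero]

theorem tens_add_left (f f' : W.H X →ₗ[K] W.H X') (g : W.H Y →ₗ[K] W.H Y') :
    W.tens (f + f') g = W.tens f g + W.tens f' g := by
  refine W.hom_ext_tm fun a b => ?_
  rw [LinearMap.add_apply, tens_tm, tens_tm, tens_tm, LinearMap.add_apply, tm_add_left]

theorem tens_add_right (f : W.H X →ₗ[K] W.H X') (g g' : W.H Y →ₗ[K] W.H Y') :
    W.tens f (g + g') = W.tens f g + W.tens f g' := by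
  refine W.hom_ext_tm fun a b => ?_
  rw [LinearMap.add_apply, tens_tm, tens_tm, tens_tm, LinearMap.add_apply, tm_add_right]

theorem tens_smul_left (c : K) (f : W.H X →ₗ[K] W.H X') (g : W.H Y →ₗ[K] W.H Y') :
    W.tens (c • f) g = c • W.tens f g := by
  refine W.hom_ext_tm fun a b => ?_
  rw [LinearMap.smul_apply, tens_tm, tens_tm, LinearMap.smul_apply, tm_smul_left]

theorem tens_smul_right (c : K) (f : W.H X →ₗ[K] W.H X') (g : W.H Y →ₗ[K] W.H Y') :
    W.tens f (c • g) = c • W.tens f g := by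
  refine W.hom_ext_tm fun a b => ?_
  rw [LinearMap.smul_apply, tens_tm, tens_tm, LinearMap.smul_apply, tm_smul_right]

theorem tens_zero_left (g : W.H Y →ₗ[K] W.H Y') : W.tens (0 : W.H X →ₗ[K] W.H X') g = 0 := by
  refine W.hom_ext_tm fun a b => ?_
  rw [tens_tm, LinearMap.zero_apply, LinearMap.zero_apply, tm_zero_left]

theorem tens_zero_right (f : W.H X →ₗ[K] W.H X') : W.tens f (0 : W.H Y →ₗ[K] W.H Y') = 0 := by
  refine W.hom_ext_tm fun a b => ?_
  rw [tens_tm, LinearMap.zero_apply, LinearMap.zero_apply, tm_zero_right]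

/-- the trace of a tensor product -/
theorem trace_tens (f : W.H X →ₗ[K] W.H X) (g : W.H Y →ₗ[K] W.H Y) :
    LinearMap.trace K (W.H (X ⊗ Y)) (W.tens f g) =
      LinearMap.trace K (W.H X) f * LinearMap.trace K (W.H Y) g := by
  have h : W.tens f g = (W.kun X Y).conj (TensorProduct.map f g) := rfl
  rw [h, LinearMap.trace_conj', LinearMap.trace_tensorProduct']

/-- the projections of `(X' × Y') × (X × Y)` -/
abbrev q13 (X' Y' X Y : 𝒱) : (X' ⊗ Y') ⊗ (X ⊗ Y) ⟶ X' ⊗ X :=
  lift (fst (X' ⊗ Y') (X ⊗ Y) ≫ fst X' Y') (snd (X' ⊗ Y') (X ⊗ Y) ≫ fst X Y)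

abbrev q24 (X' Y' X Y : 𝒱) : (X' ⊗ Y') ⊗ (X ⊗ Y) ⟶ Y' ⊗ Y :=
  lift (fst (X' ⊗ Y') (X ⊗ Y) ≫ snd X' Y') (snd (X' ⊗ Y') (X ⊗ Y) ≫ snd X Y)

/-- the exterior product of correspondences -/
noncomputable def ext (u : W.H (X' ⊗ X)) (v : W.H (Y' ⊗ Y)) : W.H ((X' ⊗ Y') ⊗ (X ⊗ Y)) :=
  W.pull (q13 X' Y' X Y) u * W.pull (q24 X' Y' X Y) v

theorem ext_tm {i j : ℕ} (p : W.H X') {q : W.H X} {r : W.H Y'} (s : W.H Y) (hq : q ∈ W.gr X i)
    (hr : r ∈ W.gr Y' j) :
    W.ext (W.tm p q) (W.tm r s) = ((-1 : K) ^ (i * j)) • W.tm (W.tm p r) (W.tm q s) := by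
  have h1 := W.comm_smul (W.pull_gr (snd (X' ⊗ Y') (X ⊗ Y) ≫ fst X Y) hq)
    (W.pull_gr (fst (X' ⊗ Y') (X ⊗ Y) ≫ snd X' Y') hr)
  rw [ext, pull_tm, pull_tm, mul_assoc, ← mul_assoc (W.pull (snd (X' ⊗ Y') (X ⊗ Y) ≫ fst X Y) q),
    h1]
  simp only [tm, W.pull_comp, map_mul, mul_smul_comm, smul_mul_assoc, mul_assoc]

/-- the product of two decomposable classes -/
theorem tm_mul {i j : ℕ} (p : W.H X) {q : W.H Y} {r : W.H X} (s : W.H Y) (hq : q ∈ W.gr Y i)
    (hr : r ∈ W.gr X j) :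
    W.tm p q * W.tm r s = ((-1 : K) ^ (i * j)) • W.tm (p * r) (q * s) := by
  have h1 := W.comm_smul (W.pull_gr (snd X Y) hq) (W.pull_gr (fst X Y) hr)
  have h2 : W.tm p q * W.tm r s = W.pull (fst X Y) p *
      (W.pull (snd X Y) q * W.pull (fst X Y) r) * W.pull (snd X Y) s := by
    simp only [tm, mul_assoc]
  rw [h2, h1]
  simp only [tm, map_mul, mul_smul_comm, smul_mul_assoc, mul_assoc]

/-- the exterior product acts as the tensor product if the second class has even degree -/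
theorem op_ext (u : W.H (X' ⊗ X)) {v : W.H (Y' ⊗ Y)} {d : ℕ} (hv : v ∈ W.gr (Y' ⊗ Y) (2 * d)) :
    W.op (W.ext u v) = W.tens (W.op u) (W.op v) := by
  refine W.ind_gr (P := fun v => W.op (W.ext u v) = W.tens (W.op u) (W.op v)) hv ?_
    (fun k l r s hkl hr hs => ?_) (fun v v' h h' => ?_)
  · rw [ext, map_zero, mul_zero, op_zero, op_zero, tens_zero_right]
  · refine W.ind_tm (P := fun u => W.op (W.ext u (W.tm r s)) = W.tens (W.op u) (W.op (W.tm r s)))
      u ?_ (fun p q => ?_) (fun u u' h h' => ?_)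
    · rw [ext, map_zero, zero_mul, op_zero, op_zero, tens_zero_left]
    · refine W.ind (P := fun q => W.op (W.ext (W.tm p q) (W.tm r s)) =
        W.tens (W.op (W.tm p q)) (W.op (W.tm r s))) q ?_ (fun i q hq => ?_) (fun q q' h h' => ?_)
      · rw [tm_zero_right, ext, map_zero, zero_mul, op_zero, op_zero, tens_zero_left]
      · rw [W.ext_tm p s hq hr, op_smul]
        refine W.hom_ext_tm fun a b => ?_
        rw [LinearMap.smul_apply, tens_tm, op_tm, op_tm, op_tm, tm_smul_left, tm_smul_right]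
        refine W.ind (P := fun a => ((-1 : K) ^ (i * k)) •
          W.tr (X ⊗ Y) (W.tm q s * W.tm a b) • W.tm p r =
          W.tr X (q * a) • W.tr Y (s * b) • W.tm p r) a
          (by simp [tm_zero_left]) (fun m a ha => ?_) (fun a a' h h' => by
            simp only [tm_add_left, mul_add, map_add, add_smul, smul_add, h, h'])
        rw [W.tr_four q a s b ha hs, smul_smul, smul_smul]
        congr 1
        by_cases him : i + m = 2 * W.dim X
        · have h1 : ((-1 : K)) ^ (i * k) * (-1) ^ (l * m) = 1 := by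
            rw [← pow_add]
            have h2 : Even (i * k + l * m) := by
              have h5 : i * k + l * m + 2 * (i * l) = i * (2 * d) + l * (2 * W.dim X) := by
                rw [← hkl, ← him]
                ring
              have h6 : Even (i * k + l * m + 2 * (i * l)) := by
                rw [h5]
                exact ⟨i * d + l * W.dim X, by ring⟩
              exact (Nat.even_add.1 h6).2 ⟨i * l, by ring⟩
            exact h2.neg_one_pow
          rw [← mul_assoc, ← mul_assoc, h1, one_mul]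
        · rw [W.tr_gr (SetLike.mul_mem_graded hq ha) him]
          ring
      · simp only [tm_add_right, ext, map_add, add_mul, op_add, tens_add_left] at h h' ⊢
        rw [h, h']
    · simp only [ext, map_add, add_mul, op_add, tens_add_left] at h h' ⊢
      rw [h, h']
  · simp only [ext, map_add, mul_add, op_add, tens_add_right] at h h' ⊢
    rw [h, h']

/-- tensor products of algebraic correspondences are algebraic -/
theorem cor_tens {r s : ℤ} {f : W.H X →ₗ[K] W.H X'} {g : W.H Y →ₗ[K] W.H Y'}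
    (hf : f ∈ W.Cor X' X r) (hg : g ∈ W.Cor Y' Y s) :
    W.tens f g ∈ W.Cor (X' ⊗ Y') (X ⊗ Y) (r + s) := by
  rcases W.mem_cor.1 hf with rfl | ⟨c, u, hc, hu, rfl⟩
  · rw [tens_zero_left]
    exact AddSubgroup.zero_mem _
  rcases W.mem_cor.1 hg with rfl | ⟨d, v, hd, hv, rfl⟩
  · rw [tens_zero_right]
    exact AddSubgroup.zero_mem _
  refine W.mem_cor.2 (Or.inr ⟨c + d, W.ext u v, ?_, W.alg_mul (W.alg_pull _ hu) (W.alg_pull _ hv),
    (W.op_ext u (W.alg_gr hv)).symm⟩)
  rw [W.dim_tensor]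
  push_cast
  omega

/-- `(x, y, x') ↦ ((x, y), (x', y))` -/
abbrev mm (X' Y X : 𝒱) : X' ⊗ (Y ⊗ X) ⟶ (X' ⊗ Y) ⊗ (X ⊗ Y) :=
  lift (lift (fst X' (Y ⊗ X)) (snd X' (Y ⊗ X) ≫ fst Y X))
    (lift (snd X' (Y ⊗ X) ≫ snd Y X) (snd X' (Y ⊗ X) ≫ fst Y X))

/-- the partial supertrace of a correspondence -/
noncomputable def ptr (U : W.H ((X' ⊗ Y) ⊗ (X ⊗ Y))) : W.H (X' ⊗ X) :=
  W.push (p13 X' Y X) (W.pull (mm X' Y X) U)

theorem ptr_add (U V : W.H ((X' ⊗ Y) ⊗ (X ⊗ Y))) : W.ptr (U + V) = W.ptr U + W.ptr V := by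
  rw [ptr, map_add, map_add]
  rfl

theorem ptr_smul (a : K) (U : W.H ((X' ⊗ Y) ⊗ (X ⊗ Y))) : W.ptr (a • U) = a • W.ptr U := by
  rw [ptr, map_smul, map_smul]
  rfl

theorem ptr_tm {i j : ℕ} (a : W.H X') (b : W.H Y) {c : W.H X} {d : W.H Y} (hc : c ∈ W.gr X i)
    (hd : d ∈ W.gr Y j) :
    W.ptr (W.tm (W.tm a b) (W.tm c d)) = ((-1 : K) ^ (i * j) * W.tr Y (b * d)) • W.tm a c := by
  have h1 := W.comm_smul (W.pull_gr (snd X' (Y ⊗ X) ≫ snd Y X) hc)
    (W.pull_gr (snd X' (Y ⊗ X) ≫ fst Y X) hd)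
  have h2 : W.pull (mm X' Y X) (W.tm (W.tm a b) (W.tm c d)) =
      ((-1 : K) ^ (i * j)) • W.tm a (W.tm (b * d) c) := by
    rw [pull_tm, pull_tm, pull_tm, h1]
    simp only [tm, W.pull_comp, map_mul, mul_smul_comm, mul_assoc]
  rw [ptr, h2, map_smul, push_mid, smul_smul]

/-- the trace through the partial supertrace -/
theorem trace_ptr (U : W.H ((X' ⊗ Y) ⊗ (X ⊗ Y))) (f : W.H X' →ₗ[K] W.H X) :
    LinearMap.trace K (W.H (X' ⊗ Y)) (W.op U ∘ₗ W.tens f (W.eps Y)) =
      LinearMap.trace K (W.H X') (W.op (W.ptr U) ∘ₗ f) := by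
  refine W.ind_tm (P := fun U => LinearMap.trace K (W.H (X' ⊗ Y)) (W.op U ∘ₗ W.tens f (W.eps Y)) =
      LinearMap.trace K (W.H X') (W.op (W.ptr U) ∘ₗ f)) U ?_ (fun p q => ?_) (fun u v hu hv => ?_)
  · have h : W.ptr (0 : W.H ((X' ⊗ Y) ⊗ (X ⊗ Y))) = 0 := by rw [ptr, map_zero, map_zero]
    rw [h, op_zero, op_zero, LinearMap.zero_comp, LinearMap.zero_comp, map_zero, map_zero]
  · refine W.ind_tm (P := fun p => LinearMap.trace K (W.H (X' ⊗ Y))
        (W.op (W.tm p q) ∘ₗ W.tens f (W.eps Y)) =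
        LinearMap.trace K (W.H X') (W.op (W.ptr (W.tm p q)) ∘ₗ f)) p ?_ (fun a b => ?_)
        (fun p p' hp hp' => ?_)
    · have h : W.ptr (W.tm (0 : W.H (X' ⊗ Y)) q) = 0 := by
        rw [tm_zero_left, ptr, map_zero, map_zero]
      rw [h, tm_zero_left, op_zero, op_zero, LinearMap.zero_comp, LinearMap.zero_comp, map_zero,
        map_zero]
    · refine W.ind_tm (P := fun q => LinearMap.trace K (W.H (X' ⊗ Y))
        (W.op (W.tm (W.tm a b) q) ∘ₗ W.tens f (W.eps Y)) =
        LinearMap.trace K (W.H X') (W.op (W.ptr (W.tm (W.tm a b) q)) ∘ₗ f)) q ?_ (fun c d => ?_)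
        (fun q q' hq hq' => ?_)
      · have h : W.ptr (W.tm (W.tm a b) (0 : W.H (X ⊗ Y))) = 0 := by
          rw [tm_zero_right, ptr, map_zero, map_zero]
        rw [h, tm_zero_right, op_zero, op_zero, LinearMap.zero_comp, LinearMap.zero_comp, map_zero,
          map_zero]
      · refine W.ind (P := fun c => LinearMap.trace K (W.H (X' ⊗ Y))
          (W.op (W.tm (W.tm a b) (W.tm c d)) ∘ₗ W.tens f (W.eps Y)) =
          LinearMap.trace K (W.H X') (W.op (W.ptr (W.tm (W.tm a b) (W.tm c d))) ∘ₗ f)) c ?_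
          (fun i c hc => ?_) (fun c c' h h' => ?_)
        · have h : W.ptr (W.tm (W.tm a b) (W.tm (0 : W.H X) d)) = 0 := by
            rw [tm_zero_left, tm_zero_right, ptr, map_zero, map_zero]
          rw [h, tm_zero_left, tm_zero_right, op_zero, op_zero, LinearMap.zero_comp,
            LinearMap.zero_comp, map_zero, map_zero]
        · refine W.ind (P := fun d => LinearMap.trace K (W.H (X' ⊗ Y))
            (W.op (W.tm (W.tm a b) (W.tm c d)) ∘ₗ W.tens f (W.eps Y)) =
            LinearMap.trace K (W.H X') (W.op (W.ptr (W.tm (W.tm a b) (W.tm c d))) ∘ₗ f)) d ?_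
            (fun j d hd => ?_) (fun d d' h h' => ?_)
          · have h : W.ptr (W.tm (W.tm a b) (W.tm c (0 : W.H Y))) = 0 := by
              rw [tm_zero_right, tm_zero_right, ptr, map_zero, map_zero]
            rw [h, tm_zero_right, tm_zero_right, op_zero, op_zero, LinearMap.zero_comp,
              LinearMap.zero_comp, map_zero, map_zero]
          · rw [W.ptr_tm a b hc hd, op_smul, op_tm_eq, op_tm_eq, LinearMap.smul_comp, map_smul]
            have e1 : ((W.tr X ∘ₗ LinearMap.mulLeft K c).smulRight a) ∘ₗ f =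
              (W.tr X ∘ₗ LinearMap.mulLeft K c ∘ₗ f).smulRight a := rfl
            have e2 : ((W.tr (X ⊗ Y) ∘ₗ LinearMap.mulLeft K (W.tm c d)).smulRight (W.tm a b)) ∘ₗ
              W.tens f (W.eps Y) = (W.tr (X ⊗ Y) ∘ₗ LinearMap.mulLeft K (W.tm c d) ∘ₗ
                W.tens f (W.eps Y)).smulRight (W.tm a b) := rfl
            rw [e1, e2, LinearMap.trace_smulRight, LinearMap.trace_smulRight]
            show W.tr (X ⊗ Y) (W.tm c d * W.tens f (W.eps Y) (W.tm a b)) =
              ((-1 : K) ^ (i * j) * W.tr Y (b * d)) • W.tr X (c * f a)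
            rw [tens_tm]
            -- sign check
            rw [← W.tr_eps b d]
            generalize W.eps Y b = b'
            refine W.ind (P := fun z => W.tr (X ⊗ Y) (W.tm c d * W.tm z b') =
              ((-1 : K) ^ (i * j) * W.tr Y (d * b')) • W.tr X (c * z)) (f a) (by simp [tm])
              (fun m z hz => ?_) (fun z z' h h' => by
                simp only [tm_add_left, mul_add, map_add, smul_add, h, h'])
            rw [W.tr_four c z d b' hz hd, smul_eq_mul]
            by_cases him : i + m = 2 * W.dim X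
            · have h1 : ((-1 : K)) ^ (j * m) = (-1) ^ (i * j) := by
                have h2 : j * m + j * i = j * (2 * W.dim X) := by rw [← him]; ring
                have h3 : Even (j * m + j * i) := by
                  rw [h2]
                  exact ⟨j * W.dim X, by ring⟩
                rcases Nat.even_or_odd (j * m) with h4 | h4
                · have h5 : Even (i * j) := by
                    rw [mul_comm]
                    exact (Nat.even_add.1 h3).1 h4
                  rw [h4.neg_one_pow, h5.neg_one_pow]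
                · have h5 : Odd (i * j) := by
                    rw [mul_comm]
                    rw [← Nat.not_even_iff_odd] at h4 ⊢
                    exact fun h6 => h4 ((Nat.even_add.1 h3).2 h6)
                  rw [h4.neg_one_pow, h5.neg_one_pow]
              rw [h1]
              ring
            · rw [W.tr_gr (SetLike.mul_mem_graded hc hz) him]
              ring
          · simp only [tm_add_right, ptr_add, op_add, LinearMap.add_comp, map_add] at h h' ⊢
            rw [h, h']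
        · simp only [tm_add_left, tm_add_right, ptr_add, op_add, LinearMap.add_comp, map_add]
            at h h' ⊢
          rw [h, h']
      · simp only [tm_add_right, ptr_add, op_add, LinearMap.add_comp, map_add] at hq hq' ⊢
        rw [hq, hq']
    · simp only [tm_add_left, ptr_add, op_add, LinearMap.add_comp, map_add] at hp hp' ⊢
      rw [hp, hp']
  · rw [op_add, LinearMap.add_comp, map_add, hu, hv, ptr_add, op_add, LinearMap.add_comp, map_add]

/-- partial supertraces of algebraic correspondences are algebraic -/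
theorem cor_ptr {r : ℤ} {F : W.H (X ⊗ Y) →ₗ[K] W.H (X' ⊗ Y)}
    (hF : F ∈ W.Cor (X' ⊗ Y) (X ⊗ Y) r) :
    ∃ p ∈ W.Cor X' X r, ∀ f : W.H X' →ₗ[K] W.H X,
      LinearMap.trace K (W.H (X' ⊗ Y)) (F ∘ₗ W.tens f (W.eps Y)) =
        LinearMap.trace K (W.H X') (p ∘ₗ f) := by
  rcases W.mem_cor.1 hF with rfl | ⟨c, U, hc, hU, rfl⟩
  · refine ⟨0, AddSubgroup.zero_mem _, fun f => ?_⟩
    rw [LinearMap.zero_comp, LinearMap.zero_comp, map_zero, map_zero]
  · rw [W.dim_tensor] at hc
    push_cast at hc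
    by_cases h : W.dim Y ≤ c
    · refine ⟨W.op (W.ptr U), W.mem_cor.2 (Or.inr ⟨c - W.dim Y, W.ptr U, by omega,
        W.push_alg _ (W.alg_pull _ hU) ?_, rfl⟩), fun f => W.trace_ptr U f⟩
      rw [W.dim_tensor, W.dim_tensor, W.dim_tensor]
      omega
    · refine ⟨0, AddSubgroup.zero_mem _, fun f => ?_⟩
      rw [W.trace_ptr]
      have h0 : W.ptr U = 0 := by
        refine W.duality _ fun y => ?_
        refine W.ind (P := fun y => W.tr (X' ⊗ X) (W.ptr U * y) = 0) y (by simp)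
          (fun j y hy => ?_) (fun r s hr hs => by simp only [mul_add, map_add, hr, hs, add_zero])
        rw [ptr, push_spec]
        by_cases hj : 2 * W.dim (X' ⊗ X) < j
        · rw [W.gr_top hy hj, map_zero, mul_zero, map_zero]
        · refine W.tr_gr (SetLike.mul_mem_graded (W.pull_gr _ (W.alg_gr hU)) (W.pull_gr _ hy)) ?_
          rw [W.dim_tensor] at hj ⊢
          rw [W.dim_tensor]
          omega
      rw [h0, op_zero]

end PreWeil

end Pool.Agent.Lib.MP_4ca46c_ag.Nil
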