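import Pool.Agent.Lib.MP_4ca46c_ag.Nil.P.Alg

/-!
# Projectors, the sign operator and the Lefschetz trace formula
-/

set_option autoImplicit false

open CategoryTheory MonoidalCategory CartesianMonoidalCategory TensorProduct

namespace Pool.Agent.Lib.MP_4ca46c_ag.Nil

universe v u w

namespace PreWeil

variable {K : Type w} [Field K] [CharZero K] {𝒱 : Type u} [Category.{v} 𝒱]
  [CartesianMonoidalCategory 𝒱] (W : PreWeil K 𝒱) {X Y Z : 𝒱}

/-- the projector of `H(X)` onto `H^i(X)` -/
noncomputable def pi (X : 𝒱) (i : ℕ) : W.H X →ₗ[K] W.H X := GradedAlgebra.proj (W.gr X) i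

theorem pi_mem (i : ℕ) (x : W.H X) : W.pi X i x ∈ W.gr X i := by
  rw [pi, GradedAlgebra.proj_apply]
  exact SetLike.coe_mem _

theorem pi_same {i : ℕ} {x : W.H X} (hx : x ∈ W.gr X i) : W.pi X i x = x := by
  rw [pi, GradedAlgebra.proj_apply, DirectSum.decompose_of_mem_same _ hx]

theorem pi_ne {i j : ℕ} {x : W.H X} (hx : x ∈ W.gr X i) (h : i ≠ j) : W.pi X j x = 0 := by
  rw [pi, GradedAlgebra.proj_apply, DirectSum.decompose_of_mem_ne _ hx h]

theorem pi_top {i : ℕ} (hi : 2 * W.dim X < i) (x : W.H X) : W.pi X i x = 0 :=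
  W.gr_top (W.pi_mem i x) hi

theorem sum_pi (x : W.H X) : ∑ i ∈ Finset.range (2 * W.dim X + 1), W.pi X i x = x := by
  refine W.ind (P := fun x => ∑ i ∈ Finset.range (2 * W.dim X + 1), W.pi X i x = x) x (by simp)
    (fun i x hx => ?_) (fun a b ha hb => ?_)
  · by_cases hi : 2 * W.dim X < i
    · rw [W.gr_top hx hi]
      simp
    · rw [Finset.sum_eq_single_of_mem i (Finset.mem_range.2 (by omega))
        fun j _ hj => W.pi_ne hx (Ne.symm hj), W.pi_same hx]
  · simp only [map_add, Finset.sum_add_distrib, ha, hb]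

/-- linear maps are determined on homogeneous elements -/
theorem hom_ext {M : Type*} [AddCommGroup M] [Module K M] {f g : W.H X →ₗ[K] M}
    (h : ∀ (i : ℕ) (x : W.H X), x ∈ W.gr X i → f x = g x) : f = g := by
  ext x
  exact W.ind (P := fun x => f x = g x) x (by simp) h
    (fun a b ha hb => by simp only [map_add, ha, hb])

/-- linear maps are determined on decomposable elements -/
theorem hom_ext_tm {M : Type*} [AddCommGroup M] [Module K M] {f g : W.H (X ⊗ Y) →ₗ[K] M}
    (h : ∀ (a : W.H X) (b : W.H Y), f (W.tm a b) = g (W.tm a b)) : f = g := by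
  ext x
  exact W.ind_tm (P := fun x => f x = g x) x (by simp) h
    (fun a b ha hb => by simp only [map_add, ha, hb])

/-- the sign operator `(-1)^i` on `H^i(X)` -/
noncomputable def eps (X : 𝒱) : W.H X →ₗ[K] W.H X :=
  ∑ i ∈ Finset.range (2 * W.dim X + 1), (-1 : K) ^ i • W.pi X i

theorem eps_gr {i : ℕ} {x : W.H X} (hx : x ∈ W.gr X i) : W.eps X x = (-1 : K) ^ i • x := by
  rw [eps, LinearMap.sum_apply]
  by_cases hi : 2 * W.dim X < i
  · rw [W.gr_top hx hi]
    simp
  · rw [Finset.sum_eq_single_of_mem i (Finset.mem_range.2 (by omega))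
      fun j _ hj => by rw [LinearMap.smul_apply, W.pi_ne hx (Ne.symm hj), smul_zero],
      LinearMap.smul_apply, W.pi_same hx]

theorem eps_eps : W.eps X ∘ₗ W.eps X = LinearMap.id := by
  refine W.hom_ext fun i x hx => ?_
  rw [LinearMap.comp_apply, W.eps_gr hx, map_smul, W.eps_gr hx, smul_smul, ← pow_add,
    Even.neg_one_pow ⟨i, rfl⟩, one_smul, LinearMap.id_apply]

/-- the even projector -/
noncomputable def even (X : 𝒱) : W.H X →ₗ[K] W.H X :=
  ∑ i ∈ (Finset.range (2 * W.dim X + 1)).filter Even, W.pi X i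

theorem even_even {i : ℕ} {x : W.H X} (hx : x ∈ W.gr X i) (h : Even i) : W.even X x = x := by
  rw [even, LinearMap.sum_apply]
  by_cases hi : 2 * W.dim X < i
  · rw [W.gr_top hx hi]
    simp
  · rw [Finset.sum_eq_single_of_mem i (Finset.mem_filter.2 ⟨Finset.mem_range.2 (by omega), h⟩)
      fun j _ hj => W.pi_ne hx (Ne.symm hj), W.pi_same hx]

theorem even_odd {i : ℕ} {x : W.H X} (hx : x ∈ W.gr X i) (h : Odd i) : W.even X x = 0 := by
  rw [even, LinearMap.sum_apply]
  refine Finset.sum_eq_zero fun j hj => W.pi_ne hx ?_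
  rintro rfl
  exact (Nat.not_even_iff_odd.2 h) (Finset.mem_filter.1 hj).2

theorem eps_eq : W.eps X = (2 : K) • W.even X - LinearMap.id := by
  refine W.hom_ext fun i x hx => ?_
  rw [W.eps_gr hx, LinearMap.sub_apply, LinearMap.smul_apply, LinearMap.id_apply]
  rcases Nat.even_or_odd i with h | h
  · rw [W.even_even hx h, h.neg_one_pow, one_smul, two_smul]
    abel
  · rw [W.even_odd hx h, h.neg_one_pow, smul_zero, neg_one_smul, zero_sub]

/-- the sign operator in the trace -/
theorem tr_eps (a b : W.H X) : W.tr X (b * W.eps X a) = W.tr X (a * b) := by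
  refine W.ind (P := fun a => W.tr X (b * W.eps X a) = W.tr X (a * b)) a (by simp)
    (fun i a ha => ?_) (fun r s hr hs => by simp only [mul_add, add_mul, map_add, hr, hs])
  refine W.ind (P := fun b => W.tr X (b * W.eps X a) = W.tr X (a * b)) b (by simp)
    (fun j b hb => ?_) (fun r s hr hs => by simp only [mul_add, add_mul, map_add, hr, hs])
  rw [W.eps_gr ha, mul_smul_comm, map_smul, smul_eq_mul, W.tr_comm ha hb]
  by_cases h : i + j = 2 * W.dim X
  · congr 1
    have h1 : Even (i + j) := h ▸ ⟨W.dim X, by ring⟩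
    rcases Nat.even_or_odd i with hi | hi
    · rw [hi.neg_one_pow, (hi.mul_right j).neg_one_pow]
    · have hj : Odd j := by
        rcases Nat.even_or_odd j with hj | hj
        · exact absurd h1 (Nat.not_even_iff_odd.2 (hi.add_even hj))
        · exact hj
      rw [hi.neg_one_pow, (hi.mul hj).neg_one_pow]
  · rw [W.tr_gr (SetLike.mul_mem_graded hb ha) (by omega), mul_zero, mul_zero]

/-- the operator of a decomposable class has rank one -/
theorem op_tm_eq (a : W.H X) (b : W.H Y) :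
    W.op (W.tm a b) = (W.tr Y ∘ₗ LinearMap.mulLeft K b).smulRight a := by
  ext x
  rw [op_tm]
  rfl

/-- the Lefschetz trace formula -/
theorem trace_eps (u : W.H (X ⊗ X)) :
    LinearMap.trace K (W.H X) (W.op u ∘ₗ W.eps X) = W.tr X (W.pull (lift (𝟙 X) (𝟙 X)) u) := by
  refine W.ind_tm (P := fun u => LinearMap.trace K (W.H X) (W.op u ∘ₗ W.eps X) =
    W.tr X (W.pull (lift (𝟙 X) (𝟙 X)) u)) u ?_ (fun a b => ?_) (fun u v hu hv => ?_)
  · rw [op_zero, LinearMap.zero_comp, map_zero, map_zero, map_zero]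
  · rw [op_tm_eq, pull_tm, W.pull_id, W.pull_id, ← W.tr_eps a b]
    have h : ((W.tr X ∘ₗ LinearMap.mulLeft K b).smulRight a) ∘ₗ W.eps X =
        (W.tr X ∘ₗ LinearMap.mulLeft K b ∘ₗ W.eps X).smulRight a := rfl
    rw [h, LinearMap.trace_smulRight]
    rfl
  · rw [op_add, LinearMap.add_comp, map_add, hu, hv, map_add, map_add]

/-- the trace formula for algebraic correspondences of degree zero -/
theorem trace_eps_rat {f : W.H X →ₗ[K] W.H X} (hf : f ∈ W.Cor X X 0) :
    ∃ q : ℚ, LinearMap.trace K (W.H X) (f ∘ₗ W.eps X) = q := by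
  rcases W.mem_cor.1 hf with rfl | ⟨c, u, hc, hu, rfl⟩
  · exact ⟨0, by rw [LinearMap.zero_comp, map_zero, Rat.cast_zero]⟩
  · rw [trace_eps]
    have hc' : c = W.dim X := by omega
    subst hc'
    exact W.alg_tr (W.alg_pull _ hu)

/-- Künneth: induction over decomposable homogeneous classes -/
theorem ind_gr {P : W.H (X ⊗ Y) → Prop} {k : ℕ} {u : W.H (X ⊗ Y)} (hu : u ∈ W.gr (X ⊗ Y) k)
    (h0 : P 0) (ht : ∀ (i j : ℕ) (a : W.H X) (b : W.H Y), i + j = k → a ∈ W.gr X i →
      b ∈ W.gr Y j → P (W.tm a b)) (ha : ∀ u v, P u → P v → P (u + v)) : P u := by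
  rw [← W.pi_same hu]
  refine W.ind_tm (P := fun u => P (W.pi (X ⊗ Y) k u)) u (by rw [map_zero]; exact h0)
    (fun a b => ?_) (fun u v hu hv => by rw [map_add]; exact ha _ _ hu hv)
  refine W.ind (P := fun a => P (W.pi (X ⊗ Y) k (W.tm a b))) a
    (by rw [tm, map_zero, zero_mul, map_zero]; exact h0)
    (fun i a hi => ?_) (fun r s hr hs => by
      rw [tm, map_add, add_mul, map_add]
      exact ha _ _ hr hs)
  refine W.ind (P := fun b => P (W.pi (X ⊗ Y) k (W.tm a b))) b
    (by rw [tm, map_zero, mul_zero, map_zero]; exact h0)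
    (fun j b hj => ?_) (fun r s hr hs => by
      rw [tm, map_add, mul_add, map_add]
      exact ha _ _ hr hs)
  have h1 : W.tm a b ∈ W.gr (X ⊗ Y) (i + j) :=
    SetLike.mul_mem_graded (W.pull_gr _ hi) (W.pull_gr _ hj)
  by_cases h : i + j = k
  · subst h
    rw [W.pi_same h1]
    exact ht i j a b rfl hi hj
  · rw [W.pi_ne h1 h]
    exact h0

end PreWeil

end Pool.Agent.Lib.MP_4ca46c_ag.Nil
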